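import Mathlib

namespace Pool.Agent.Results.MP_a176d3_co.Counter
open Finset

/-- Vertices of the `k`-ary tree of depth `k-1`: words of length `< k`; the children of `v` are
the words `i :: v`. -/
abbrev Vtx (k : ℕ) := {v : List (Fin k) // v.length < k}

/-- Sibling edges (children of a non-leaf) and descendent edges (root-to-leaf paths). -/
def IsEdge (k : ℕ) (e : Set (Vtx k)) : Prop :=
  (∃ v : Vtx k, v.1.length + 1 < k ∧ e = {w | ∃ i, w.1 = i :: v.1}) ∨
  ∃ v : Vtx k, v.1.length + 1 = k ∧ e = {w | w.1 <:+ v.1}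

def Box (x y : List (Fin 19) → ℝ) (e : List (Fin 19) → Prop) : Prop :=
  ∀ w a b c d, w.length < 19 → e a → e b → e c → e d → x a ≤ x w → x w ≤ x b → y c ≤ y w →
    y w ≤ y d → e w

def Good (x y : List (Fin 19) → ℝ) : Prop :=
  (∀ v, v.length < 18 → Box x y fun w => ∃ i, w = i :: v) ∧
  ∀ v i j e a b c d, e.length < 19 → i :: v <:+ e → a <:+ e → b <:+ e → c <:+ e → d <:+ e →
    x a ≤ x (j :: v) → x (j :: v) ≤ x b → y c ≤ y (j :: v) → y (j :: v) ≤ y d → j = i

lemma Good.neg {x y} (h : Good x y) : Good (-x) y :=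
  ⟨fun v hv w a b c d l p q r s t u => h.1 v hv w b a c d l q p r s (neg_le_neg_iff.1 u)
    (neg_le_neg_iff.1 t), fun v i j e a b c d l o p q r s t u =>
    h.2 v i j e b a c d l o q p r s (neg_le_neg_iff.1 u) (neg_le_neg_iff.1 t)⟩

lemma Good.swap {x y} (h : Good x y) : Good y x :=
  ⟨fun v hv w a b c d l p q r s t u t' u' => h.1 v hv w c d a b l r s p q t' u' t u,
    fun v i j e a b c d l o p q r s t u t' u' => h.2 v i j e c d a b l o r s p q t' u' t u⟩

lemma corner {x y} (h : Good x y) (v : List (Fin 19)) (hv : v.length < 18) (i j k : Fin 19)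
    (ij : i ≠ j) (jk : j ≠ k) (a : x (i :: v) ≤ x (j :: v)) (b : x (j :: v) ≤ x (k :: v))
    (hx : x v < x (i :: v)) (hj : y v < y (j :: v)) (hk : y v < y (k :: v))
    (hi : y v < y (i :: v)) (e) (he : e.length < 19) (s : j :: v <:+ e) (p : x (j :: v) < x e) :
    y e ≤ y (j :: v) := by
  by_contra q
  have r : ∀ i : Fin 19, i :: v <:+ i :: v ∧ v <:+ i :: v ∧ (i :: v).length < 19 := fun i =>
    ⟨List.suffix_refl _, List.suffix_cons _ _, by simp; omega⟩
  have s' := (r j).2.1.trans s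
  have a1 : y (j :: v) < y (i :: v) := not_le.1 fun c => ij (h.2 v j i _ _ _ _ _ (r j).2.2 (r j).1
    (r j).2.1 (r j).1 (r j).2.1 (r j).1 hx.le a hi.le c)
  have b1 : y (k :: v) < y (j :: v) := not_le.1 fun c => jk (h.2 v k j _ _ _ _ _ (r k).2.2 (r k).1
    (r k).2.1 (r k).1 (r k).2.1 (r k).1 (hx.le.trans a) b hj.le c)
  have a2 : x e < x (k :: v) := not_le.1 fun c => jk (h.2 v j k e _ _ _ _ he s s
    (List.suffix_refl _) s' s b c hk.le b1.le).symm
  have b2 : y e < y (i :: v) := not_le.1 fun c => ij (h.2 v j i e _ _ _ _ he s s' s s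
    (List.suffix_refl _) hx.le a a1.le c)
  obtain ⟨m, rfl⟩ := h.1 v hv e _ _ _ _ he ⟨j, rfl⟩ ⟨k, rfl⟩ ⟨j, rfl⟩ ⟨i, rfl⟩ p.le a2.le
    (not_le.1 q).le b2.le
  rw [s.eq_of_length (by simp)] at p
  exact lt_irrefl _ p

lemma corner' {x y} (h : Good x y) (v : List (Fin 19)) (hv : v.length < 18) (S : Finset (Fin 19))
    (hS : 2 < S.card) (hx : ∀ i ∈ S, x v < x (i :: v) ∧ y v < y (i :: v)) :
    ∃ j, ∀ e : List _, e.length < 19 → j :: v <:+ e → x (j :: v) < x e → y e ≤ y (j :: v) := by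
  obtain ⟨i, hi, j, hj, k, hk, ij, ik, jk⟩ := two_lt_card.1 hS
  have c := fun i j k hi hj hk ij jk a b => corner h v hv i j k ij jk a b (hx i hi).1 (hx j hj).2
    (hx k hk).2 (hx i hi).2
  rcases le_total (x (i :: v)) (x (j :: v)) with a | a <;>
    rcases le_total (x (j :: v)) (x (k :: v)) with b | b <;>
    rcases le_total (x (i :: v)) (x (k :: v)) with d | d
  exacts [⟨j, c i j k hi hj hk ij jk a b⟩, ⟨j, c i j k hi hj hk ij jk a b⟩,
    ⟨k, c i k j hi hk hj ik jk.symm d b⟩, ⟨i, c k i j hk hi hj ik.symm ij d a⟩,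
    ⟨i, c j i k hj hi hk ij.symm ik a d⟩, ⟨k, c j k i hj hk hi jk ik.symm b d⟩,
    ⟨j, c k j i hk hj hi jk.symm ij.symm b a⟩, ⟨j, c k j i hk hj hi jk.symm ij.symm b a⟩]

lemma side {x y} (h : Good x y) (v : List (Fin 19)) (hv : v.length < 18) (i j : Fin 19)
    (hi : ∃ a b, a <:+ v ∧ b <:+ v ∧ x a ≤ x (i :: v) ∧ x (i :: v) ≤ x b)
    (hc : ∃ c, c <:+ v ∧ y c ≤ y (i :: v)) (d : y (i :: v) ≤ y (j :: v)) : i = j := by
  obtain ⟨a, b, a1, b1, a2, b2⟩ := hi
  obtain ⟨c, c1, c2⟩ := hc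
  have s := List.suffix_cons j v
  exact h.2 v j i (j :: v) a b c _ (by simp; omega) (List.suffix_refl _) (a1.trans s) (b1.trans s)
    (c1.trans s) (List.suffix_refl _) a2 b2 c2 d

open Classical in
/-- position of the child `i :: v` relative to its ancestors -/
noncomputable def ty (x : List (Fin 19) → ℝ) (v : List (Fin 19)) (i : Fin 19) : Option Bool :=
  if ∀ a, a <:+ v → x a < x (i :: v) then some true else
  if ∀ a, a <:+ v → x (i :: v) < x a then some false else none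

lemma ty_some {x v i s} (h : ty x v i = some s) (a) (ha : a <:+ v) :
    (cond s x (-x)) a < (cond s x (-x)) (i :: v) := by
  unfold ty at h
  split_ifs at h with p q <;> obtain rfl := Option.some.inj h
  exacts [p a ha, neg_lt_neg (q a ha)]

lemma ty_none {x v i} (h : ty x v i = none) :
    ∃ a b, a <:+ v ∧ b <:+ v ∧ x a ≤ x (i :: v) ∧ x (i :: v) ≤ x b := by
  unfold ty at h
  split_ifs at h with p q
  push Not at p q
  obtain ⟨b, p⟩ := p
  obtain ⟨a, q⟩ := q
  exact ⟨a, b, q.1, p.1, q.2, p.2⟩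

lemma mid {x y} (h : Good x y) (v : List (Fin 19)) (hv : v.length < 18) (i j : Fin 19)
    (hi : ty x v i = none) (hj : ty x v j = none) (e : ty y v i = ty y v j) : i = j := by
  have k : ∀ {y}, Good x y → (∃ c, c <:+ v ∧ y c ≤ y (i :: v)) → (∃ c, c <:+ v ∧ y c ≤ y (j :: v))
      → i = j := fun {y} h a b => (le_total (y (i :: v)) (y (j :: v))).elim
    (side h v hv i j (ty_none hi) a) fun d => (side h v hv j i (ty_none hj) b d).symm
  have r := List.suffix_refl v
  rcases t : ty y v j with _ | _ | _ <;> rw [t] at e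
  · obtain ⟨a, -, a1, -, a2, -⟩ := ty_none e
    obtain ⟨b, -, b1, -, b2, -⟩ := ty_none t
    exact k h ⟨a, a1, a2⟩ ⟨b, b1, b2⟩
  · exact k h.swap.neg.swap ⟨v, r, (ty_some e v r).le⟩ ⟨v, r, (ty_some t v r).le⟩
  · exact k h ⟨v, r, (ty_some e v r).le⟩ ⟨v, r, (ty_some t v r).le⟩

lemma main {x y} (h : Good x y) (n : ℕ) (hn : n ≤ 5) : ∃ (v : List (Fin 19))
    (Z : Finset (Bool × Bool)), v.length = n ∧ Z.card = n ∧ ∀ z ∈ Z, ∃ c, c <:+ v ∧
      ∀ e : List _, e.length < 19 → c <:+ e → (cond z.1 x (-x)) c < (cond z.1 x (-x)) e →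
        (cond z.2 y (-y)) e ≤ (cond z.2 y (-y)) c := by
  induction n with
  | zero => exact ⟨[], ∅, rfl, rfl, by simp⟩
  | succ n ih =>
    obtain ⟨v, Z, h1, h2, h3⟩ := ih (by omega)
    obtain ⟨⟨s, t⟩, -, hS⟩ := exists_lt_card_fiber_of_mul_lt_card_of_maps_to (s := univ)
      (t := univ) (f := fun i => (ty x v i, ty y v i)) (n := 2) (fun _ _ => mem_univ _) (by simp)
    obtain ⟨i, hi, j, hj, ij⟩ := one_lt_card.1 (lt_trans (by norm_num) hS)
    simp only [mem_filter, mem_univ, true_and, Prod.mk.injEq] at hi hj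
    rcases s with _ | s
    · exact absurd (mid h v (by omega) i j hi.1 hj.1 (hi.2.trans hj.2.symm)) ij
    rcases t with _ | t
    · exact absurd (mid h.swap v (by omega) i j hi.2 hj.2 (hi.1.trans hj.1.symm)) ij
    have g : Good (cond s x (-x)) (cond t y (-y)) := by
      cases s <;> cases t
      exacts [h.neg.swap.neg.swap, h.neg, h.swap.neg.swap, h]
    obtain ⟨m, hm⟩ := corner' g v (by omega) _ hS fun i hi => by
      simp only [mem_filter, mem_univ, true_and, Prod.mk.injEq] at hi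
      exact ⟨ty_some hi.1 v (List.suffix_refl _), ty_some hi.2 v (List.suffix_refl _)⟩
    have hz : (s, t) ∉ Z := fun hz => by
      obtain ⟨c, c1, c2⟩ := h3 _ hz
      exact absurd (c2 (i :: v) (by simp; omega) (c1.trans (List.suffix_cons _ _))
        (ty_some hi.1 c c1)) (not_le.2 (ty_some hi.2 c c1))
    refine ⟨m :: v, insert (s, t) Z, by simp [h1], by rw [card_insert_of_notMem hz, h2],
      fun z hz => ?_⟩
    rcases mem_insert.1 hz with rfl | hz
    · exact ⟨_, List.suffix_refl _, hm⟩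
    · obtain ⟨c, c1, c2⟩ := h3 z hz
      exact ⟨c, c1.trans (List.suffix_cons _ _), c2⟩

theorem result : ¬ ∀ k, 1 ≤ k → ∃ p : Vtx k → ℝ × ℝ, Function.Injective p ∧
    ∀ e, IsEdge k e → ∃ a b c d : ℝ, a < b ∧ c < d ∧
      ∀ w, w ∈ e ↔ p w ∈ Set.Ioo a b ×ˢ Set.Ioo c d := by
  intro h
  obtain ⟨p, -, hp⟩ := h 19 (by norm_num)
  let q : List (Fin 19) → ℝ × ℝ := fun v => if h : v.length < 19 then p ⟨v, h⟩ else 0
  have k : ∀ e : List (Fin 19) → Prop, (∀ w, e w → w.length < 19) → IsEdge 19 {w | e w.1} →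
      Box (fun v => (q v).1) (fun v => (q v).2) e := by
    intro e he hE w a b c d l e1 e2 e3 e4
    obtain ⟨a', b', c', d', -, -, hr⟩ := hp _ hE
    have r := fun v hv => (hr ⟨v, he v hv⟩).1 hv
    simp only [q, dif_pos l, dif_pos (he _ e1), dif_pos (he _ e2), dif_pos (he _ e3),
      dif_pos (he _ e4)]
    exact fun t1 t2 t3 t4 => (hr ⟨w, l⟩).2 ⟨⟨(r a e1).1.1.trans_le t1, t2.trans_lt (r b e2).1.2⟩,
      (r c e3).2.1.trans_le t3, t4.trans_lt (r d e4).2.2⟩
  obtain ⟨-, Z, -, hZ, -⟩ := main (x := fun v => (q v).1) (y := fun v => (q v).2) ⟨fun v hv =>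
    k _ (by rintro _ ⟨i, rfl⟩; simp; omega) (Or.inl ⟨⟨v, by omega⟩, by simpa using (by omega), rfl⟩),
    fun v i j e a b c d l o e1 e2 e3 e4 t1 t2 t3 t4 => by
      have s : e <:+ List.replicate (18 - e.length) 0 ++ e := List.suffix_append _ _
      have ln : (List.replicate (18 - e.length) (0 : Fin 19) ++ e).length = 18 := by simp; omega
      have := k (· <:+ List.replicate (18 - e.length) 0 ++ e) (fun w hw => by
        have := hw.length_le; omega) (Or.inr ⟨⟨_, by omega⟩, by simp only [ln], rfl⟩) (j :: v)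
        a b c d (by have := o.length_le; simp at this ⊢; omega) (e1.trans s) (e2.trans s)
        (e3.trans s) (e4.trans s) t1 t2 t3 t4
      have := (List.suffix_of_suffix_length_le this (o.trans s) (by simp)).eq_of_length (by simp)
      exact (List.cons.inj this).1⟩ 5 le_rfl
  have := card_le_univ Z
  simp [hZ] at this

end Pool.Agent.Results.MP_a176d3_co.Counter
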